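import Pool.Agent.W68.Qn.Defs

set_option autoImplicit false

namespace Pool.Agent.W759.Qn

open Pool.Agent.W68.Qn

def chk (h M D E : ℕ) (L : List ℕ) : Bool :=
  List.rec (motive := fun _ => Bool) true
    (fun a _ ih => (((M &&& (D <<< a)) &&& ((E >>> a) ||| (D <<< (2 * h - a)))) == 0) && ih) L

def leaf (h : ℕ) (L : List ℕ) : Bool :=
  !((decide (h ≤ 2 * L.length - 1) && decide (3 * (2 * L.length - 1) ≤ 4 * h)) &&
    (3 * (3 * (L.map (fun a => a * a)).sum + 2 * h * h * L.length) ==
      (2 * L.length - 1) * (2 * L.length - 1 + 1) * (2 * (2 * L.length - 1) + 1)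
        + 12 * h * L.sum)) ||
    L.all (fun a => a % 2 == 0)

def go (h : ℕ) (n : ℕ) : ℕ → ℕ → ℕ → List ℕ → Bool :=
  Nat.rec (motive := fun _ => ℕ → ℕ → ℕ → List ℕ → Bool)
    (fun M D E L => !(chk h M D E L) || leaf h L)
    (fun n ih M D E L => !(chk h M D E L) ||
      (ih M (D ||| 2 ^ (h - (n + 1)) ||| 2 ^ (h + (n + 1)))
          (E ||| 2 ^ (h - (n + 1)) ||| 2 ^ (h + (n + 1))) L &&
       ih (M ||| 2 ^ (h - (n + 1))) (D ||| 2 ^ (h + (n + 1)))
          (E ||| 2 ^ (h - (n + 1))) ((h - (n + 1)) :: L) &&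
       ih (M ||| 2 ^ (h + (n + 1))) (D ||| 2 ^ (h - (n + 1)))
          (E ||| 2 ^ (h + (n + 1))) ((h + (n + 1)) :: L))) n

theorem chk_cons (h M D E a : ℕ) (L : List ℕ) : chk h M D E (a :: L) =
    ((((M &&& (D <<< a)) &&& ((E >>> a) ||| (D <<< (2 * h - a)))) == 0) && chk h M D E L) := rfl

theorem go_zero (h M D E : ℕ) (L : List ℕ) :
    go h 0 M D E L = (!(chk h M D E L) || leaf h L) := rfl

theorem go_succ (h n M D E : ℕ) (L : List ℕ) :
    go h (n + 1) M D E L = (!(chk h M D E L) ||
      (go h n M (D ||| 2 ^ (h - (n + 1)) ||| 2 ^ (h + (n + 1)))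
          (E ||| 2 ^ (h - (n + 1)) ||| 2 ^ (h + (n + 1))) L &&
       go h n (M ||| 2 ^ (h - (n + 1))) (D ||| 2 ^ (h + (n + 1)))
          (E ||| 2 ^ (h - (n + 1))) ((h - (n + 1)) :: L) &&
       go h n (M ||| 2 ^ (h + (n + 1))) (D ||| 2 ^ (h - (n + 1)))
          (E ||| 2 ^ (h + (n + 1))) ((h + (n + 1)) :: L))) := rfl

structure Inv (h : ℕ) (A : Finset ℤ) (z M D E : ℕ) (L : List ℕ) : Prop where
  mm : ∀ j, M.testBit j = true → (j : ℤ) ∈ A
  dd : ∀ j, D.testBit j = true → (j : ℤ) ∉ A
  ee : ∀ j, E.testBit j = true → j ≤ 2 * h ∧ ((2 * h - j : ℕ) : ℤ) ∉ A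
  nd : L.Nodup
  ll : ∀ a : ℕ, a ∈ L ↔ ((a : ℤ) ∈ A ∧ (a < z ∨ 2 * h < a + z))

theorem chk_sound {h : ℕ} {A : Finset ℤ} (sh : Shape (h : ℤ) A) {z M D E : ℕ} {L : List ℕ}
    (inv : Inv h A z M D E L) : ∀ L' : List ℕ, (∀ a ∈ L', (a : ℤ) ∈ A) →
      chk h M D E L' = true
  | [], _ => rfl
  | a :: l, hl => by
    rw [chk_cons, Bool.and_eq_true, beq_iff_eq]
    refine ⟨?_, chk_sound sh inv l (fun b hb => hl b (List.mem_cons_of_mem _ hb))⟩
    have ha : (a : ℤ) ∈ A := hl a (List.mem_cons_self ..)
    apply Nat.eq_of_testBit_eq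
    intro b
    rw [Nat.zero_testBit]
    by_contra hb
    rw [Bool.not_eq_false] at hb
    rw [Nat.testBit_and, Nat.testBit_and, Nat.testBit_or, Nat.testBit_shiftLeft,
      Nat.testBit_shiftRight, Nat.testBit_shiftLeft, Bool.and_eq_true, Bool.and_eq_true,
      Bool.or_eq_true, Bool.and_eq_true, Bool.and_eq_true, decide_eq_true_eq,
      decide_eq_true_eq] at hb
    obtain ⟨⟨h1, h2, h3⟩, h4⟩ := hb
    have hbA := inv.mm b h1
    have h5 := inv.dd _ h3
    have hr := sh.rng a ha
    have e1 : |(a : ℤ) - (b : ℤ)| = ((b - a : ℕ) : ℤ) := by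
      rw [abs_sub_comm, abs_of_nonneg (by omega)]
      omega
    rcases sh.cov a ha b hbA with hc | hc
    · rw [e1] at hc
      exact h5 hc
    · rcases h4 with h4 | ⟨h4, h6⟩
      · obtain ⟨h7, h8⟩ := inv.ee _ h4
        apply h8
        have e2 : |2 * (h : ℤ) - (a : ℤ) - (b : ℤ)| = ((2 * h - (a + b) : ℕ) : ℤ) := by
          rw [abs_of_nonneg (by omega)]
          omega
        rw [← e2]
        exact hc
      · have h7 := inv.dd _ h6
        apply h7
        have e2 : |2 * (h : ℤ) - (a : ℤ) - (b : ℤ)| = ((b - (2 * h - a) : ℕ) : ℤ) := by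
          rw [abs_of_nonpos (by omega)]
          omega
        rw [← e2]
        exact hc

def Concl (h : ℕ) (A : Finset ℤ) : Prop := ∀ m : ℤ, (h : ℤ) ≤ m → 3 * m ≤ 4 * (h : ℤ) →
  2 * (A.card : ℤ) = m + 1 →
  3 * ∑ a ∈ A, (a ^ 2 + 2 * ((h : ℤ) - a) ^ 2) = m * (m + 1) * (2 * m + 1) → ∀ a ∈ A, Even a

theorem sum_list (h : ℤ) : ∀ L : List ℕ,
    (L.map (fun a : ℕ => ((a : ℤ) ^ 2 + 2 * (h - (a : ℤ)) ^ 2))).sum =
      3 * (((L.map (fun a => a * a)).sum : ℕ) : ℤ) + 2 * h * h * (L.length : ℤ)
        - 4 * h * ((L.sum : ℕ) : ℤ)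
  | [] => by simp
  | a :: l => by
    rw [List.map_cons, List.sum_cons, sum_list h l, List.map_cons, List.sum_cons,
      List.sum_cons, List.length_cons]
    push_cast
    ring

theorem leaf_sound {h : ℕ} {A : Finset ℤ} (sh : Shape (h : ℤ) A) {M D E : ℕ} {L : List ℕ}
    (inv : Inv h A h M D E L) (hleaf : leaf h L = true) : Concl h A := by
  intro m h1 h2 h3 h4
  have hmem : ∀ a : ℤ, a ∈ A ↔ ∃ n ∈ L, (n : ℤ) = a := by
    intro a
    constructor
    · intro ha
      have hr := sh.rng a ha
      refine ⟨a.toNat, ?_, Int.toNat_of_nonneg hr.1⟩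
      rw [inv.ll, Int.toNat_of_nonneg hr.1]
      refine ⟨ha, ?_⟩
      by_contra hc
      push Not at hc
      have : a = h := by omega
      have h5 := sh.dis a ha
      apply h5
      have : 2 * (h : ℤ) - a = a := by omega
      rw [this]
      exact ha
    · rintro ⟨n, hn, rfl⟩
      exact ((inv.ll n).mp hn).1
  have hA : A = (L.map (fun n : ℕ => (n : ℤ))).toFinset := by
    ext a
    rw [hmem, List.mem_toFinset, List.mem_map]
  have hnd : (L.map (fun n : ℕ => (n : ℤ))).Nodup :=
    inv.nd.map (fun a b hab => by exact_mod_cast hab)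
  have hcard : A.card = L.length := by
    rw [hA, List.toFinset_card_of_nodup hnd, List.length_map]
  have hsum : ∑ a ∈ A, (a ^ 2 + 2 * ((h : ℤ) - a) ^ 2) =
      3 * (((L.map (fun a => a * a)).sum : ℕ) : ℤ) + 2 * (h : ℤ) * h * (L.length : ℤ)
        - 4 * (h : ℤ) * ((L.sum : ℕ) : ℤ) := by
    rw [← sum_list, hA, List.sum_toFinset _ hnd, List.map_map]
    rfl
  rw [hsum] at h4
  rw [hcard] at h3
  have hk : 1 ≤ L.length := by
    rw [← hcard]
    exact Finset.card_pos.mpr ⟨0, sh.A0⟩
  have hm : m = ((2 * L.length - 1 : ℕ) : ℤ) := by omega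
  unfold leaf at hleaf
  rw [Bool.or_eq_true] at hleaf
  rcases hleaf with hl | hl
  · exfalso
    rw [Bool.not_eq_true', Bool.and_eq_false_iff, Bool.and_eq_false_iff] at hl
    rcases hl with (hl | hl) | hl
    · rw [decide_eq_false_iff_not] at hl
      apply hl
      omega
    · rw [decide_eq_false_iff_not] at hl
      apply hl
      omega
    · rw [beq_eq_false_iff_ne] at hl
      apply hl
      generalize (L.map (fun a => a * a)).sum = S2 at h4
      generalize L.sum = S1 at h4
      generalize 2 * L.length - 1 = N at hm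
      subst hm
      have h5 : ((3 * (3 * S2 + 2 * h * h * L.length) : ℕ) : ℤ) =
          ((N * (N + 1) * (2 * N + 1) + 12 * h * S1 : ℕ) : ℤ) := by
        push_cast
        linarith
      exact_mod_cast h5
  · intro a ha
    obtain ⟨n, hn, rfl⟩ := (hmem a).mp ha
    have := List.all_eq_true.mp hl n hn
    rw [beq_iff_eq] at this
    exact ⟨((n / 2 : ℕ) : ℤ), by omega⟩

theorem testBit_or_pow {M z j : ℕ} (hj : (M ||| 2 ^ z).testBit j = true) :
    M.testBit j = true ∨ j = z := by
  rw [Nat.testBit_or, Nat.testBit_two_pow, Bool.or_eq_true, decide_eq_true_eq] at hj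
  rcases hj with hj | hj
  · exact Or.inl hj
  · exact Or.inr hj.symm

theorem go_sound {h : ℕ} {A : Finset ℤ} (sh : Shape (h : ℤ) A) : ∀ n, n < h →
    ∀ M D E L, Inv h A (h - n) M D E L → go h n M D E L = true → Concl h A
  | 0, _, M, D, E, L, inv, hgo => by
    rw [go_zero, chk_sound sh inv L (fun a ha => ((inv.ll a).mp ha).1)] at hgo
    exact leaf_sound sh inv (by simpa using hgo)
  | n + 1, hn, M, D, E, L, inv, hgo => by
    rw [go_succ, chk_sound sh inv L (fun a ha => ((inv.ll a).mp ha).1)] at hgo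
    rw [Bool.not_true, Bool.false_or, Bool.and_eq_true, Bool.and_eq_true] at hgo
    obtain ⟨⟨g1, g2⟩, g3⟩ := hgo
    have hz : h - n = (h - (n + 1)) + 1 := by omega
    by_cases c1 : ((h - (n + 1) : ℕ) : ℤ) ∈ A
    · have c2 : ((h + (n + 1) : ℕ) : ℤ) ∉ A := by
        have := sh.dis _ c1
        have e : 2 * (h : ℤ) - ((h - (n + 1) : ℕ) : ℤ) = ((h + (n + 1) : ℕ) : ℤ) := by omega
        rwa [e] at this
      refine go_sound sh n (by omega) _ _ _ _ ⟨?_, ?_, ?_, ?_, ?_⟩ g2
      · intro j hj
        rcases testBit_or_pow hj with hj | rfl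
        · exact inv.mm j hj
        · exact c1
      · intro j hj
        rcases testBit_or_pow hj with hj | rfl
        · exact inv.dd j hj
        · exact c2
      · intro j hj
        rcases testBit_or_pow hj with hj | rfl
        · exact inv.ee j hj
        · refine ⟨by omega, ?_⟩
          have e : 2 * h - (h - (n + 1)) = h + (n + 1) := by omega
          rw [e]; exact c2
      · refine List.nodup_cons.mpr ⟨?_, inv.nd⟩
        rw [inv.ll]
        rintro ⟨_, h2⟩
        omega
      · intro a
        rw [List.mem_cons, inv.ll, hz]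
        constructor
        · rintro (rfl | ⟨h1, h2⟩)
          · exact ⟨c1, Or.inl (by omega)⟩
          · exact ⟨h1, by omega⟩
        · rintro ⟨h1, h2⟩
          by_cases ha : a = h - (n + 1)
          · exact Or.inl ha
          · right
            refine ⟨h1, ?_⟩
            by_contra hc
            have : a = h + (n + 1) := by omega
            rw [this] at h1
            exact c2 h1
    · by_cases c2 : ((h + (n + 1) : ℕ) : ℤ) ∈ A
      · refine go_sound sh n (by omega) _ _ _ _ ⟨?_, ?_, ?_, ?_, ?_⟩ g3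
        · intro j hj
          rcases testBit_or_pow hj with hj | rfl
          · exact inv.mm j hj
          · exact c2
        · intro j hj
          rcases testBit_or_pow hj with hj | rfl
          · exact inv.dd j hj
          · exact c1
        · intro j hj
          rcases testBit_or_pow hj with hj | rfl
          · exact inv.ee j hj
          · refine ⟨by omega, ?_⟩
            have e : 2 * h - (h + (n + 1)) = h - (n + 1) := by omega
            rw [e]; exact c1
        · refine List.nodup_cons.mpr ⟨?_, inv.nd⟩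
          rw [inv.ll]
          rintro ⟨_, h2⟩
          omega
        · intro a
          rw [List.mem_cons, inv.ll, hz]
          constructor
          · rintro (rfl | ⟨h1, h2⟩)
            · exact ⟨c2, Or.inr (by omega)⟩
            · exact ⟨h1, by omega⟩
          · rintro ⟨h1, h2⟩
            by_cases ha : a = h + (n + 1)
            · exact Or.inl ha
            · right
              refine ⟨h1, ?_⟩
              by_contra hc
              have : a = h - (n + 1) := by omega
              rw [this] at h1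
              exact c1 h1
      · refine go_sound sh n (by omega) _ _ _ _ ⟨?_, ?_, ?_, ?_, ?_⟩ g1
        · exact inv.mm
        · intro j hj
          rcases testBit_or_pow hj with hj | rfl
          · rcases testBit_or_pow hj with hj | rfl
            · exact inv.dd j hj
            · exact c1
          · exact c2
        · intro j hj
          rcases testBit_or_pow hj with hj | rfl
          · rcases testBit_or_pow hj with hj | rfl
            · exact inv.ee j hj
            · refine ⟨by omega, ?_⟩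
              have e : 2 * h - (h - (n + 1)) = h + (n + 1) := by omega
              rw [e]; exact c2
          · refine ⟨by omega, ?_⟩
            have e : 2 * h - (h + (n + 1)) = h - (n + 1) := by omega
            rw [e]; exact c1
        · exact inv.nd
        · intro a
          rw [inv.ll, hz]
          constructor
          · rintro ⟨h1, h2⟩
            exact ⟨h1, by omega⟩
          · rintro ⟨h1, h2⟩
            refine ⟨h1, ?_⟩
            by_contra hc
            have : a = h - (n + 1) ∨ a = h + (n + 1) := by omega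
            rcases this with rfl | rfl
            · exact c1 h1
            · exact c2 h1

theorem start {h : ℕ} {A : Finset ℤ} (hh : 0 < h) (sh : Shape (h : ℤ) A)
    (hgo : go h (h - 1) 1 (2 ^ h) (2 ^ h) [0] = true) : Concl h A := by
  have c : (h : ℤ) ∉ A := by
    intro hc
    have := sh.dis _ hc
    apply this
    have e : 2 * (h : ℤ) - h = h := by ring
    rw [e]; exact hc
  refine go_sound sh (h - 1) (by omega) _ _ _ _ ⟨?_, ?_, ?_, ?_, ?_⟩ hgo
  · intro j hj
    have hj' : (2 ^ 0 : ℕ).testBit j = true := hj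
    rw [Nat.testBit_two_pow, decide_eq_true_eq] at hj'
    subst hj'
    exact sh.A0
  · intro j hj
    rw [Nat.testBit_two_pow, decide_eq_true_eq] at hj
    subst hj
    exact c
  · intro j hj
    rw [Nat.testBit_two_pow, decide_eq_true_eq] at hj
    subst hj
    refine ⟨by omega, ?_⟩
    have e : 2 * h - h = h := by omega
    rw [e]; exact c
  · simp
  · intro a
    rw [List.mem_singleton]
    constructor
    · rintro rfl
      exact ⟨sh.A0, Or.inl (by omega)⟩
    · rintro ⟨h1, h2⟩
      have := sh.rng _ h1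
      omega

theorem runs : ∀ h : Fin 15, go (h.val + 1) h.val 1 (2 ^ (h.val + 1)) (2 ^ (h.val + 1)) [0]
    = true := by decide +kernel

theorem t4s : T4s := by
  intro m h A sh h15 hm h3 hc hs
  have h0 : 1 ≤ h := by
    have := sh.rng 0 sh.A0
    omega
  obtain ⟨n, rfl⟩ : ∃ n : ℕ, h = (n : ℤ) := ⟨h.toNat, (Int.toNat_of_nonneg (by omega)).symm⟩
  have hn : 0 < n := by omega
  have hr := runs ⟨n - 1, by omega⟩
  simp only at hr
  rw [Nat.sub_add_cancel hn] at hr
  exact start hn sh hr m hm h3 hc hs

end Pool.Agent.W759.Qn
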